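import Mathlib
import Pool.Agent.Run7.h558.DarkC

/-!
# Smooth domains in which no point has dense fronts

In every dimension `n ≥ 2` there is a bounded domain with smooth boundary such that every point
leaves one of two fixed open regions dark forever. So Q1 has a negative answer, for every point of
the domain.

For `y = ⟪e, q⟫ ≥ 5/2` the outer boundary is an oblate ellipsoid of revolution with the axis `e`
whose focal sphere lies in the hyperplane `y = 5/2`. There `|w p - y v|² - w²` (centre of the
ellipsoid as origin, `w = ⟪e, v⟫`, focal radius `1`) is preserved by flight and reflection, and its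
sign tells whether the line crosses the hyperplane inside or outside the focal sphere. A biconcave
body touches the hyperplane from below exactly in the focal sphere; light which is below the
hyperplane and not in the dent of the body passes outside the focal sphere, and so it never enters
the dent. The domain is symmetric under `y ↦ -y`, and has a second such body and dent.
-/

set_option autoImplicit false

open Pool.Agent.H800R2

namespace Pool.Agent.Results.MP_67b65f_an.DarkRegions

/-- **The answer to Q1 is no, in every dimension and for every point.** For every `n ≥ 2` there are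
a bounded domain `Ω` of `ℝⁿ` with smooth boundary and two nonempty open subsets `B₁`, `B₂` of `Ω`
such that for every point `P` of `Ω` no front of `P` meets `B₁`, or no front of `P` meets `B₂`.
Hence for no point `P` of `Ω` the fronts become dense as `t → ∞`. -/
theorem result : ∀ n : ℕ, 2 ≤ n → ∃ Ω B₁ B₂ : Set (Euc n),
    IsSmoothDomain Ω ∧ 0 < MeasureTheory.volume Ω ∧
    (IsOpen B₁ ∧ B₁.Nonempty ∧ B₁ ⊆ Ω) ∧ (IsOpen B₂ ∧ B₂.Nonempty ∧ B₂ ⊆ Ω) ∧
    (∀ P ∈ Ω, (∀ t : ℝ, Disjoint (front Ω P t) B₁) ∨ ∀ t : ℝ, Disjoint (front Ω P t) B₂) ∧
    ∀ P ∈ Ω, ¬ FrontsBecomeDense Ω P := by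
  intro n hn
  obtain ⟨Ω, B₁, B₂, h1, h2, h3, h4, h5⟩ := Pool.Agent.Run7.h558.Dark.main n hn
  exact ⟨Ω, B₁, B₂, h1, h1.isOpen.measure_pos MeasureTheory.volume h1.isConnected.nonempty,
    h2, h3, h4, h5⟩

end Pool.Agent.Results.MP_67b65f_an.DarkRegions
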